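import Pool.Agent.Lib.helper3.Cortex

set_option autoImplicit false

namespace Pool.Agent.Results.MP_6331ea_an.NotCortex

open Filter Topology

universe u

/-- Spectral permanence: the spectrum of every element is unchanged in every unital commutative
Banach algebra `B` (in universe `u`) containing `A` as a closed subalgebra with the same unit,
the inclusion `j` being any topological embedding with closed range. -/
def SpectralPermanence (A : Type) [NormedCommRing A] [NormedAlgebra ℂ A] : Prop :=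
  ∀ (B : Type u) [NormedCommRing B] [NormedAlgebra ℂ B] [CompleteSpace B] (j : A →ₐ[ℂ] B),
    IsClosedEmbedding j → ∀ x : A, spectrum ℂ x = spectrum ℂ (j x)

/-- The character `φ` extends to a character of every commutative Banach algebra `B`
containing `A` isometrically (hence as a closed subalgebra when `A` is complete). -/
def InCortex (A : Type) [NormedCommRing A] [NormedAlgebra ℂ A] (φ : A →ₐ[ℂ] ℂ) : Prop :=
  ∀ (B : Type) [NormedCommRing B] [NormedAlgebra ℂ B] [CompleteSpace B] (j : A →ₐ[ℂ] B),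
    Isometry j → ∃ ψ : B →ₐ[ℂ] ℂ, ∀ x : A, ψ (j x) = φ x

lemma perm_of_tdz (A : Type) [NormedCommRing A] [NormedAlgebra ℂ A]
    (tdz : ∀ x : A, ¬ IsUnit x → ∃ y : ℕ → A, (∀ n, ‖y n‖ = 1) ∧
      Tendsto (fun n => ‖x * y n‖) atTop (𝓝 0)) : SpectralPermanence.{u} A := by
  intro B _ _ _ j hj x
  refine Set.Subset.antisymm (fun z hz => ?_) (AlgHom.spectrum_apply_subset j x)
  rw [spectrum.mem_iff] at hz ⊢
  obtain ⟨y, hy1, hy⟩ := tdz _ hz
  rintro ⟨v, hv⟩
  have h1 : Tendsto (fun n => j ((algebraMap ℂ A z - x) * y n)) atTop (𝓝 (j 0)) :=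
    (hj.continuous.tendsto 0).comp (tendsto_zero_iff_norm_tendsto_zero.2 hy)
  have h2 : Tendsto (fun n => j (y n)) atTop (𝓝 (j 0)) := by
    have := h1.const_mul (↑v⁻¹ : B)
    simp only [map_mul, map_sub, AlgHom.commutes, ← hv, map_zero, mul_zero,
      Units.inv_mul_cancel_left] at this
    simpa only [map_zero] using this
  have h3 : Tendsto y atTop (𝓝 0) := hj.isInducing.tendsto_nhds_iff.2 h2
  have h4 := h3.norm
  simp only [hy1, norm_zero] at h4
  exact one_ne_zero (tendsto_nhds_unique tendsto_const_nhds h4)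

lemma notCortex {A : Type} [NormedCommRing A] [NormedAlgebra ℂ A] {Y : Type} [TopologicalSpace Y]
    [CompactSpace Y] (j : A → C(Y, ℂ)) (h1 : j 1 = 1) (hm : ∀ a b, j (a * b) = j a * j b)
    (ha : ∀ a b, j (a + b) = j a + j b) (hc : ∀ (c : ℂ) y, j (algebraMap ℂ A c) y = c)
    (hn : ∀ a, ‖j a‖ = ‖a‖) (φ : A →ₐ[ℂ] ℂ) (p q : A) (w : C(Y, ℂ)) (hp : φ p = 0) (hq : φ q = 0)
    (hb : w * j p + j q = 1) : ¬ InCortex A φ := by
  intro h
  let J : A →ₐ[ℂ] C(Y, ℂ) :=
    { toFun := j
      map_one' := h1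
      map_mul' := hm
      map_zero' := by
        have := ha 0 0
        rw [add_zero] at this
        exact left_eq_add.1 this
      map_add' := ha
      commutes' := fun c => ContinuousMap.ext fun y => by simp [hc] }
  obtain ⟨ψ, hψ⟩ := h C(Y, ℂ) J (AddMonoidHomClass.isometry_of_norm J hn)
  have e1 : ψ (j p) = 0 := (hψ p).trans hp
  have e2 : ψ (j q) = 0 := (hψ q).trans hq
  have := congrArg ψ hb
  rw [map_add, map_mul, e1, e2, map_one] at this
  simp at this

open Pool.Agent.Lib.H3Cortex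

theorem result : ∃ (A : Type) (_ : NormedCommRing A) (_ : NormedAlgebra ℂ A) (_ : CompleteSpace A),
    SpectralPermanence.{u} A ∧
    (∀ x : A, ¬ IsUnit x → ∃ y : ℕ → A, (∀ n, ‖y n‖ = 1) ∧
      Tendsto (fun n => ‖x * y n‖) atTop (𝓝 0)) ∧
    ∃ φ : A →ₐ[ℂ] ℂ, ¬ InCortex A φ ∧
      ∃ x₁ x₂ : A, φ x₁ = 0 ∧ φ x₂ = 0 ∧ ∀ y : A, ‖y‖ = 1 → 1 ≤ ‖x₁ * y‖ + ‖x₂ * y‖ := by
  refine ⟨A, inferInstance, inferInstance, inferInstance, perm_of_tdz A tdz, tdz, ev, fun h => ?_, p, q, ev_p,
    ev_q, fun y hy => ?_⟩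
  · refine notCortex (fun a => res a) ?_ ?_ ?_ ?_ ?_ ev p q wb ?_ ?_ ?_ h
    · exact map_one res
    · intro a b; exact map_mul res a b
    · intro a b; exact map_add res a b
    · intro c y
      have := congrArg (fun f : C(T × J, ℂ) => f y) (res.commutes c)
      simp only [algebraMap_apply, smul_eq_mul, mul_one] at this
      exact this
    · intro a; exact res_norm a
    · exact ev_p
    · exact ev_q
    · exact bezout
  · have e : res y = wb * res (p * y) + res (q * y) := by
      rw [map_mul, map_mul, ← mul_assoc, ← add_mul, bezout, one_mul]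
    refine hy.symm.trans_le ?_
    rw [← res_norm y, e, ← res_norm (p * y), ← res_norm (q * y)]
    refine (norm_add_le _ _).trans (add_le_add ((norm_mul_le _ _).trans ?_) le_rfl)
    exact mul_le_of_le_one_left (norm_nonneg _) wb_norm

end Pool.Agent.Results.MP_6331ea_an.NotCortex
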